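import Mathlib
import Pool.Agent.H44.FB2

open Finset Filter Topology

namespace Pool.Agent.Results.MP_271f9a_pr.Q1True

/-- covariance `R_H(s,t)` of fractional Brownian motion with Hurst parameter `H` -/
noncomputable def RH (H s t : ℝ) : ℝ := (|s| ^ (2 * H) + |t| ^ (2 * H) - |s - t| ^ (2 * H)) / 2

/-- the `N × N` matrix `R_H(i,j)`, `1 ≤ i, j ≤ N`, with `H = γ / 2` -/
noncomputable def R (γ : ℝ) (N : ℕ) : Matrix (Fin N) (Fin N) ℝ :=
  Matrix.of fun i j => RH (γ / 2) ((i : ℕ) + 1) ((j : ℕ) + 1)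

/-- the Hermitian form `a^* M a` of a real symmetric matrix (a real number) -/
noncomputable def form {N : ℕ} (M : Matrix (Fin N) (Fin N) ℝ) (a : Fin N → ℂ) : ℝ :=
  (∑ i, ∑ j, (starRingEnd ℂ) (a i) * (M i j : ℂ) * a j).re

/-- smallest generalized eigenvalue `κ(γ,N)` of the pair (Hadamard square of `R`, `R`) -/
noncomputable def kappaN (γ : ℝ) (N : ℕ) : ℝ :=
  ⨅ a : {a : Fin N → ℂ // a ≠ 0},
    form (Matrix.hadamard (R γ N) (R γ N)) a.1 / form (R γ N) a.1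

open Pool.Agent.H44.FB

lemma form_eq' {N : ℕ} (M : Matrix (Fin N) (Fin N) ℝ) (a : Fin N → ℂ) :
    form M a = ∑ i, ∑ j, (a i).re * M i j * (a j).re + ∑ i, ∑ j, (a i).im * M i j * (a j).im := by
  unfold form
  rw [Complex.re_sum, ← sum_add_distrib]
  refine sum_congr rfl fun i _ => ?_
  rw [Complex.re_sum, ← sum_add_distrib]
  refine sum_congr rfl fun j _ => ?_
  simp

lemma R_eq (γ : ℝ) (N : ℕ) (i j : Fin N) : R γ N i j = K γ ((i : ℕ) + 1) ((j : ℕ) + 1) := by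
  simp only [R, RH, K, Matrix.of_apply]
  rw [show 2 * (γ / 2) = γ by ring]

lemma quot_ge {γ : ℝ} (h1 : 1 < γ) (h2 : γ < 2) (N : ℕ) (a : Fin (N + 1) → ℂ) (ha : a ≠ 0) :
    cc γ ≤ form (Matrix.hadamard (R γ (N + 1)) (R γ (N + 1))) a / form (R γ (N + 1)) a := by
  have m1 := main h1 h2 N (fun i => (a i).re)
  have m2 := main h1 h2 N (fun i => (a i).im)
  have n1 := le_trans (mul_nonneg (cc_pos h2).le (sq_nonneg _))
    (form_ge h1 h2 N (fun i => (a i).re))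
  have n2 := le_trans (mul_nonneg (cc_pos h2).le (sq_nonneg _))
    (form_ge h1 h2 N (fun i => (a i).im))
  have hpos : 0 < form (R γ (N + 1)) a := by
    rw [form_eq']
    simp only [R_eq]
    by_cases hre : (fun i => (a i).re) = 0
    · have him : (fun i => (a i).im) ≠ 0 := by
        intro him
        apply ha
        funext i
        exact Complex.ext (congrFun hre i) (congrFun him i)
      have := form_pos h1 h2 N _ him
      linarith
    · have := form_pos h1 h2 N _ hre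
      linarith
  rw [le_div_iff₀ hpos, form_eq', form_eq']
  simp only [Matrix.hadamard_apply, R_eq, ← sq]
  linarith

lemma form_snoc {N : ℕ} (M : Matrix (Fin (N + 1)) (Fin (N + 1)) ℝ) (a : Fin N → ℂ) :
    form M (Fin.snoc a 0) = form (Matrix.of fun i j => M i.castSucc j.castSucc) a := by
  unfold form
  simp [Fin.sum_univ_castSucc]

lemma bdd {γ : ℝ} (h1 : 1 < γ) (h2 : γ < 2) (N : ℕ) :
    BddBelow (Set.range fun a : {a : Fin (N + 1) → ℂ // a ≠ 0} =>
      form (Matrix.hadamard (R γ (N + 1)) (R γ (N + 1))) a.1 / form (R γ (N + 1)) a.1) :=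
  ⟨cc γ, by rintro _ ⟨a, rfl⟩; exact quot_ge h1 h2 N a.1 a.2⟩

instance (N : ℕ) : Nonempty {a : Fin (N + 1) → ℂ // a ≠ 0} :=
  ⟨⟨fun _ => 1, fun h => one_ne_zero (congrFun h 0)⟩⟩

lemma kappa_ge {γ : ℝ} (h1 : 1 < γ) (h2 : γ < 2) (N : ℕ) : cc γ ≤ kappaN γ (N + 1) :=
  le_ciInf fun a => quot_ge h1 h2 N a.1 a.2

lemma kappa_anti {γ : ℝ} (h1 : 1 < γ) (h2 : γ < 2) : Antitone fun N => kappaN γ (N + 1) := by
  refine antitone_nat_of_succ_le fun N => le_ciInf fun a => ?_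
  have hne : (Fin.snoc a.1 0 : Fin (N + 1 + 1) → ℂ) ≠ 0 := by
    intro h
    apply a.2
    funext i
    have := congrFun h i.castSucc
    simpa using this
  refine le_trans (ciInf_le (bdd h1 h2 (N + 1)) ⟨_, hne⟩) (le_of_eq ?_)
  simp only [form_snoc]
  rfl

theorem result (γ : ℝ) (h1 : 1 < γ) (h2 : γ < 2) :
    ∃ κ : ℝ, Tendsto (kappaN γ) atTop (𝓝 κ) ∧ 0 < κ ∧
      (7 - 4 * (2 : ℝ) ^ γ + (3 : ℝ) ^ γ) / 2 ≤ κ := by
  have hb : BddBelow (Set.range fun N => kappaN γ (N + 1)) :=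
    ⟨cc γ, by rintro _ ⟨N, rfl⟩; exact kappa_ge h1 h2 N⟩
  have ht := tendsto_atTop_ciInf (kappa_anti h1 h2) hb
  have hge : cc γ ≤ ⨅ N, kappaN γ (N + 1) := le_ciInf (kappa_ge h1 h2)
  exact ⟨_, (tendsto_add_atTop_iff_nat 1).1 ht, lt_of_lt_of_le (cc_pos h2) hge, hge⟩

end Pool.Agent.Results.MP_271f9a_pr.Q1True
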